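import Pool.Agent.Helper94.PQ.StmtsK
import Pool.Agent.Helper66.PQ.Lagr

/-!
# Row HTVK: the determinant at the places over `ℓ`, coefficients in a field of odd degree

The linear algebra is that of `Helper66/PQ/Lagr` for a family of spaces; the rest follows
`Helper66/PQ/HTV`.
-/

set_option autoImplicit false

open NumberField
open scoped Classical

namespace PQ

namespace Ht48

open Matrix

variable {C α : Type} [Field C] [Fintype α]

/-- bases adapted to a subspace equal to its orthogonal space -/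
theorem data (B : Matrix (α ⊕ α) (α ⊕ α) C) (hB : B.transpose = B) (hd : B.det ≠ 0)
    (W : Submodule C (α ⊕ α → C)) (hW : ∀ x, x ∈ W ↔ ∀ y ∈ W, x ⬝ᵥ B.mulVec y = 0) :
    ∃ X Z : Matrix (α ⊕ α) α C, (fromCols X Z).det ≠ 0 ∧ X.transpose * B * X = 0 ∧
      (∀ k, (fun i => X i k) ∈ W) ∧ (∀ x ∈ W, ∃ c : α → C, x = X.mulVec c) := by
  set r := Fintype.card α with hr
  set b : LinearMap.BilinForm C (α ⊕ α → C) := Matrix.toBilin' B with hb
  have hbs : b.IsSymm := by
    refine ⟨fun x y => ?_⟩
    show b x y = b y x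
    rw [hb, Matrix.toBilin'_apply', Matrix.toBilin'_apply', dotProduct_mulVec, ← mulVec_transpose,
      hB, dotProduct_comm]
  have hbn : b.Nondegenerate := by
    rw [hb]
    exact (Matrix.nondegenerate_toBilin'_iff).2 (Matrix.nondegenerate_of_det_ne_zero hd)
  have hWo : b.orthogonal W = W := by
    ext x
    rw [LinearMap.BilinForm.mem_orthogonal_iff, hW x]
    refine forall₂_congr ?_
    intro y _
    show b y x = 0 ↔ _
    have h : b y x = b x y := hbs.eq y x
    rw [h, hb, Matrix.toBilin'_apply']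
  have hdim : Module.finrank C W = r := by
    have h1 := LinearMap.BilinForm.finrank_orthogonal hbn W
    rw [hWo, Module.finrank_fintype_fun_eq_card, Fintype.card_sum] at h1
    have h2 : Module.finrank C W ≤ Module.finrank C (α ⊕ α → C) := Submodule.finrank_le W
    rw [Module.finrank_fintype_fun_eq_card, Fintype.card_sum] at h2
    omega
  obtain ⟨W', hc⟩ := Submodule.exists_isCompl W
  have hdim' : Module.finrank C W' = r := by
    have h1 := Submodule.finrank_add_eq_of_isCompl hc
    rw [Module.finrank_fintype_fun_eq_card, Fintype.card_sum] at h1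
    omega
  let b1 : Module.Basis α C W := (Module.finBasisOfFinrankEq C W hdim).reindex
    (Fintype.equivFin α).symm
  let b2 : Module.Basis α C W' := (Module.finBasisOfFinrankEq C W' hdim').reindex
    (Fintype.equivFin α).symm
  let bb : Module.Basis (α ⊕ α) C (α ⊕ α → C) := (b1.prod b2).map (W.prodEquivOfIsCompl W' hc)
  set X : Matrix (α ⊕ α) α C := fun i k => (b1 k : α ⊕ α → C) i with hX
  set Z : Matrix (α ⊕ α) α C := fun i k => (b2 k : α ⊕ α → C) i with hZ
  have hYm : (Pi.basisFun C (α ⊕ α)).toMatrix bb = fromCols X Z := by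
    ext i k
    rcases k with k | k
    · simp [Module.Basis.toMatrix_apply, bb, hX, fromCols, Module.Basis.prod_apply]
    · simp [Module.Basis.toMatrix_apply, bb, hZ, fromCols, Module.Basis.prod_apply]
  have hYd : (fromCols X Z).det ≠ 0 := by
    have h1 := (Pi.basisFun C (α ⊕ α)).isUnit_det bb
    rw [Module.Basis.det_apply, hYm] at h1
    exact h1.ne_zero
  have hXW : ∀ k, (fun i => X i k) ∈ W := fun k => (b1 k).2
  have hXX : X.transpose * B * X = 0 := by
    ext k l
    have h1 := (hW _).1 (hXW k) _ (hXW l)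
    rw [Matrix.mul_assoc, Matrix.mul_apply']
    exact h1
  have hrep : ∀ x ∈ W, ∃ c : α → C, x = X.mulVec c := by
    intro x hx
    refine ⟨fun k => b1.repr ⟨x, hx⟩ k, ?_⟩
    have h1 := congrArg (Subtype.val) (b1.sum_repr ⟨x, hx⟩)
    rw [AddSubmonoidClass.coe_finsetSum] at h1
    funext i
    have h2 : _ = x i := congrFun h1 i
    rw [Finset.sum_apply] at h2
    rw [← h2, mulVec, dotProduct]
    refine Finset.sum_congr rfl ?_
    intro k _
    show b1.repr ⟨x, hx⟩ k * (b1 k : α ⊕ α → C) i = (b1 k : α ⊕ α → C) i * b1.repr ⟨x, hx⟩ k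
    ring
  exact ⟨X, Z, hYd, hXX, hXW, hrep⟩

/-- the relation between the invariants of two spaces -/
theorem rel (B B' : Matrix (α ⊕ α) (α ⊕ α) C) (W' : Submodule C (α ⊕ α → C))
    (X Z X' Z' : Matrix (α ⊕ α) α C) (hA : (X.transpose * B * Z).det ≠ 0)
    (hY' : (fromCols X' Z').det ≠ 0) (hX' : X'.transpose * B' * X' = 0)
    (hA' : (X'.transpose * B' * Z').det ≠ 0)
    (hrep : ∀ x ∈ W', ∃ c : α → C, x = X'.mulVec c)
    (g : Matrix (α ⊕ α) (α ⊕ α) C) (τ : C →+* C) (μ : C)
    (hg : g.transpose * B' * g = μ • B') (hBτ : B.map τ = B')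
    (hst : ∀ k, g.mulVec (fun i => τ (X i k)) ∈ W') :
    μ ^ Fintype.card α * ((fromCols X' Z').det / (X'.transpose * B' * Z').det) =
      g.det * τ ((fromCols X Z).det / (X.transpose * B * Z).det) := by
  have hG : ∃ G : Matrix α α C, g * X.map τ = X' * G := by
    have h1 : ∀ k, ∃ c : α → C, g.mulVec (fun i => τ (X i k)) = X'.mulVec c := fun k =>
      hrep _ (hst k)
    choose c hc using h1
    refine ⟨fun l k => c k l, ?_⟩
    ext i k
    exact congrFun (hc k) i
  obtain ⟨G, hG⟩ := hG
  have h1 := PQ66.lagr_indep B' X' Z' hY' hX' G (g * Z.map τ)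
  rw [← hG] at h1
  have h2 : fromCols (g * X.map τ) (g * Z.map τ) = g * (fromCols X Z).map τ := by
    rw [← mul_fromCols]
    congr 1
    ext i k
    rcases k with k | k <;> rfl
  have h3 : (g * X.map τ).transpose * B' * (g * Z.map τ) =
      μ • (X.transpose * B * Z).map τ := by
    have h4 : (g * X.map τ).transpose * B' * (g * Z.map τ) =
        (X.map τ).transpose * (g.transpose * B' * g) * Z.map τ := by
      rw [transpose_mul]
      simp only [Matrix.mul_assoc]
    rw [h4, hg, Matrix.map_mul, Matrix.map_mul, hBτ, Matrix.mul_smul, Matrix.smul_mul]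
    rfl
  rw [h2, h3, det_mul, det_smul] at h1
  have h5 : ((fromCols X Z).map τ).det = τ (fromCols X Z).det := (RingHom.map_det τ _).symm
  have h6 : ((X.transpose * B * Z).map τ).det = τ (X.transpose * B * Z).det :=
    (RingHom.map_det τ _).symm
  rw [h5, h6] at h1
  have h7 : τ (X.transpose * B * Z).det ≠ 0 := by
    rw [Ne, map_eq_zero]
    exact hA
  rw [map_div₀, mul_div_assoc', mul_div_assoc', div_eq_div_iff hA' h7]
  linear_combination -h1

/-- the invariants of a family of spaces -/
theorem fam {ι T : Type} [Fintype ι] [DecidableEq ι] (e : α ⊕ α ≃ ι) (B : T → Matrix ι ι C)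
    (hB : ∀ a, (B a).transpose = B a) (hd : ∀ a, (B a).det ≠ 0)
    (W : T → Submodule C (ι → C))
    (hW : ∀ a x, x ∈ W a ↔ ∀ y ∈ W a, x ⬝ᵥ (B a).mulVec y = 0) :
    ∃ t : T → C, (∀ a, t a ≠ 0) ∧ (∀ a, t a ^ 2 * (B a).det = (-1) ^ Fintype.card α) ∧
      ∀ (a a' : T) (g : Matrix ι ι C) (τ : C →+* C) (μ : C),
        g.transpose * B a' * g = μ • B a' → (B a).map τ = B a' →
        (∀ x ∈ W a, g.mulVec (fun i => τ (x i)) ∈ W a') →
        μ ^ Fintype.card α * t a' = g.det * τ (t a) := by
  have hmem : ∀ (a : T) (x : α ⊕ α → C),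
      x ∈ (W a).comap (LinearMap.funLeft C C e.symm) ↔ x ∘ e.symm ∈ W a := fun a x => Iff.rfl
  have hback : ∀ x : ι → C, (x ∘ e) ∘ e.symm = x := by
    intro x
    funext i
    simp
  have hdot : ∀ (a : T) (x y : α ⊕ α → C), x ⬝ᵥ ((B a).submatrix e e).mulVec y =
      (x ∘ e.symm) ⬝ᵥ (B a).mulVec (y ∘ e.symm) := by
    intro a x y
    rw [submatrix_mulVec_equiv]
    simp only [dotProduct]
    exact (Equiv.sum_comp e (fun i => (x ∘ e.symm) i * ((B a).mulVec (y ∘ e.symm)) i)).symm ▸
      Finset.sum_congr rfl (fun i _ => by simp)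
  have hdat := fun a => data ((B a).submatrix e e) (by rw [transpose_submatrix, hB a])
    (by rw [det_submatrix_equiv_self]; exact hd a)
    ((W a).comap (LinearMap.funLeft C C e.symm)) (by
      intro x
      rw [hmem, hW a]
      constructor
      · intro h y hy
        rw [hdot]
        exact h _ ((hmem a y).1 hy)
      · intro h y hy
        have h4 := h (y ∘ e) ((hmem a _).2 (by rw [hback]; exact hy))
        rw [hdot, hback] at h4
        exact h4)
  choose X Z hY hX hXW hrep using hdat
  have hA := fun a => PQ66.lagr_mat ((B a).submatrix e e) (by rw [transpose_submatrix, hB a])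
    (by rw [det_submatrix_equiv_self]; exact hd a) (X a) (Z a) (hY a) (hX a)
  refine ⟨fun a => (fromCols (X a) (Z a)).det /
      ((X a).transpose * (B a).submatrix e e * (Z a)).det,
    fun a => div_ne_zero (hY a) (hA a).1, ?_, ?_⟩
  · intro a
    have := (hA a).2
    rw [det_submatrix_equiv_self] at this
    exact this
  · intro a a' g τ μ hg hτ hst
    have h5 := rel ((B a).submatrix e e) ((B a').submatrix e e)
      ((W a').comap (LinearMap.funLeft C C e.symm)) (X a) (Z a) (X a') (Z a') (hA a).1 (hY a')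
      (hX a') (hA a').1 (hrep a') (g.submatrix e e) τ μ (by
        rw [transpose_submatrix, submatrix_mul_equiv, submatrix_mul_equiv, hg]
        rfl) (by
        ext i j
        exact congrFun (congrFun hτ (e i)) (e j)) (by
        intro k
        have hx := hXW a k
        rw [hmem] at hx ⊢
        rw [submatrix_mulVec_equiv]
        have h6 := hst _ hx
        have h7 : ((g.mulVec ((fun i => τ (X a i k)) ∘ e.symm)) ∘ e) ∘ e.symm =
            g.mulVec (fun i => τ (((fun i => X a i k) ∘ e.symm) i)) := by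
          rw [hback]
          rfl
        rw [h7]
        exact h6)
    rw [det_submatrix_equiv_self] at h5
    exact h5

end Ht48

open BKA Ht48

theorem htvk (hI : ST_INERT) : ST_HTVK := by
  intro F _ _ r m δ hδ ℓ _ K _ _ _ _ hodd R c s hc hs h v hv
  obtain ⟨𝔓, hO, C, _, _, _, j, act, W, hW, hD⟩ := R.hodgeTate v hv
  -- square roots
  obtain ⟨y, hy⟩ := IsAlgClosed.exists_pow_nat_eq (algebraMap F (AlgebraicClosure F) δ)
    (n := 2) two_pos
  obtain ⟨z, hz⟩ := IsAlgClosed.exists_pow_nat_eq (algebraMap F (AlgebraicClosure F) (c : F))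
    (n := 2) two_pos
  have hz' : z ^ 2 = (c : AlgebraicClosure F) := by rw [hz, map_ratCast]
  have hcF : (c : F) ≠ 0 := by exact_mod_cast hc
  have hx0 : δ * (c : F) ≠ 0 := mul_ne_zero hδ hcF
  have key := hI F v 𝔓 hO (δ * (c : F)) (y * z) hx0 (by rw [mul_pow, hy, hz, map_mul]) ?_
  · -- the valuation
    have h1 : od v (δ * (c : F)) = od v δ + od v (c : F) := by
      unfold od
      rw [map_mul, WithZero.log_mul]
      · ring
      · rw [Ne, map_eq_zero]
        exact hδ
      · rw [Ne, map_eq_zero]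
        exact hcF
    rw [← h1]
    exact key
  · intro σ hσ
    set i : ℚ_[ℓ] →+* C := algebraMap ℚ_[ℓ] C with hi
    have hττ : ∀ (τ : K →ₐ[ℚ_[ℓ]] C) (x : ℚ_[ℓ]), τ (algebraMap ℚ_[ℓ] K x) = i x :=
      fun τ x => τ.commutes x
    have hdet : ∀ τ : K →ₐ[ℚ_[ℓ]] C, (R.B.map τ).det = τ R.B.det := fun τ =>
      (RingHom.map_det (τ : K →+* C) _).symm
    let e : Fin r ⊕ Fin r ≃ Fin (2 * r) := finSumFinEquiv.trans (finCongr (two_mul r).symm)
    obtain ⟨t, ht0, ht, hg⟩ := fam e (fun τ : K →ₐ[ℚ_[ℓ]] C => R.B.map τ)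
      (fun τ => by rw [← Matrix.transpose_map, R.symm])
      (fun τ => by
        rw [hdet, Ne, map_eq_zero]
        exact R.nondeg) W hW
    rw [Fintype.card_fin] at hg
    simp only [Fintype.card_fin] at ht
    -- the element `σ`
    obtain ⟨h1, h2, h3⟩ := hD σ (by
      intro a b hab
      have h4 := hσ a b hab
      rw [pow_one] at h4
      constructor
      · intro ha
        have h5 : b = (b - a) + a := by ring
        rw [h5]
        exact Ideal.add_mem _ h4 ha
      · intro hb
        have h5 : a = b - (b - a) := by ring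
        rw [h5]
        exact Ideal.sub_mem _ hb h4)
    -- the action on the embeddings
    let sh : (K →ₐ[ℚ_[ℓ]] C) → (K →ₐ[ℚ_[ℓ]] C) := fun τ =>
      { (act σ).comp (τ : K →+* C) with
        commutes' := fun x => by
          show act σ (τ (algebraMap ℚ_[ℓ] K x)) = _
          rw [hττ]
          exact h1 x }
    have hsh : ∀ τ x, sh τ x = act σ (τ x) := fun τ x => rfl
    have hshinj : Function.Injective sh := by
      intro τ τ' hh
      ext x
      have := congrArg (fun f : K →ₐ[ℚ_[ℓ]] C => f x) hh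
      exact (act σ).injective this
    have hshbij : Function.Bijective sh := hshinj.bijective_of_finite
    have hcard : Fintype.card (K →ₐ[ℚ_[ℓ]] C) = Module.finrank ℚ_[ℓ] K := AlgHom.card ℚ_[ℓ] K C
    set M : Matrix (Fin (2 * r)) (Fin (2 * r)) K :=
      ((R.ρ σ : Matrix.GeneralLinearGroup (Fin (2 * r)) K) :
        Matrix (Fin (2 * r)) (Fin (2 * r)) K) with hM
    set u : ℚ_[ℓ]ˣ := cyc F ℓ σ with hu
    set μ : ℚ_[ℓ] := ((u ^ (-(2 * m)) : ℚ_[ℓ]ˣ) : ℚ_[ℓ]) with hμ
    have hμ0 : i μ ≠ 0 := by
      rw [Ne, map_eq_zero]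
      exact Units.ne_zero _
    have h5 : ∀ τ, (i μ) ^ r * t (sh τ) = sh τ M.det * act σ (t τ) := by
      intro τ
      have h6 : (M.map (sh τ)).det = sh τ M.det := (RingHom.map_det ((sh τ) : K →+* C) _).symm
      rw [← h6]
      refine hg τ (sh τ) (M.map (sh τ)) (act σ) (i μ) ?_ ?_ ?_
      · have h6 : (M.transpose * R.B * M).map (sh τ) =
            ((algebraMap ℚ_[ℓ] K μ) • R.B).map (sh τ) := by
          rw [R.inv σ]
        rw [Matrix.map_mul, Matrix.map_mul, Matrix.transpose_map] at h6
        rw [h6]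
        ext a b
        rw [Matrix.map_apply, Matrix.smul_apply, Matrix.smul_apply, Matrix.map_apply,
          smul_eq_mul, smul_eq_mul, map_mul, hττ]
      · ext a b
        rfl
      · exact h3 τ (sh τ) (fun _ => rfl)
    have h7 : ((u ^ (-(((2 * r : ℕ) : ℤ) * m)) : ℚ_[ℓ]ˣ) : ℚ_[ℓ]) = μ ^ r := by
      rw [hμ, ← Units.val_pow_eq_pow_val, ← zpow_natCast, ← zpow_mul]
      congr 2
      push_cast
      ring
    -- the product of the invariants
    set P : C := ∏ τ : K →ₐ[ℚ_[ℓ]] C, t τ with hP
    have hP0 : P ≠ 0 := Finset.prod_ne_zero_iff.2 (fun τ _ => ht0 τ)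
    have hPsh : ∏ τ : K →ₐ[ℚ_[ℓ]] C, t (sh τ) = P :=
      (Equiv.ofBijective sh hshbij).prod_comp t
    have hnorm : i (Algebra.norm ℚ_[ℓ] R.B.det) = ∏ τ : K →ₐ[ℚ_[ℓ]] C, τ R.B.det :=
      Algebra.norm_eq_prod_embeddings ℚ_[ℓ] C R.B.det
    have hP2 : P ^ 2 * i (Algebra.norm ℚ_[ℓ] R.B.det) = (-1) ^ r := by
      rw [hnorm, hP, ← Finset.prod_pow, ← Finset.prod_mul_distrib]
      have : ∀ τ : K →ₐ[ℚ_[ℓ]] C, t τ ^ 2 * τ R.B.det = (-1) ^ r := by
        intro τ
        rw [← hdet]
        exact ht τ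
      rw [Finset.prod_congr rfl (fun τ _ => this τ), Finset.prod_const, Finset.card_univ, hcard,
        ← pow_mul, mul_comm, pow_mul, hodd.neg_one_pow]
    -- `σ` on the square roots
    have h8 : P ^ 2 * (c : C) * i s ^ 2 = 1 := by
      have h9 := congrArg i h
      rw [map_mul, map_mul, map_pow, map_pow, map_neg, map_one, map_ratCast] at h9
      calc P ^ 2 * (c : C) * i s ^ 2 = P ^ 2 * ((c : C) * i s ^ 2) := by ring
        _ = P ^ 2 * ((-1) ^ r * i (Algebra.norm ℚ_[ℓ] R.B.det)) := by rw [h9]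
        _ = (-1) ^ r * (P ^ 2 * i (Algebra.norm ℚ_[ℓ] R.B.det)) := by ring
        _ = (-1) ^ r * (-1) ^ r := by rw [hP2]
        _ = 1 := by rw [← mul_pow]; norm_num
    have h9 : (P * i s * j z) ^ 2 = 1 := by
      have h10 : j z ^ 2 = (c : C) := by rw [← map_pow, hz', map_ratCast]
      calc (P * i s * j z) ^ 2 = P ^ 2 * j z ^ 2 * i s ^ 2 := by ring
        _ = 1 := by rw [h10, h8]
    have h10 : act σ (P * i s * j z) = P * i s * j z := by
      rw [sq] at h9
      rcases mul_self_eq_one_iff.1 h9 with h11 | h11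
      · rw [h11, map_one]
      · rw [h11, map_neg, map_one]
    rw [map_mul, map_mul, h1, h2] at h10
    have his : i s ≠ 0 := by
      rw [Ne, map_eq_zero]
      exact hs
    rcases R.det σ y hy with ⟨h11, h12⟩ | ⟨h11, h12⟩
    · rw [← hM, ← hu, h7] at h12
      have h13 : ∀ τ, t (sh τ) = act σ (t τ) := by
        intro τ
        have h5' := h5 τ
        rw [h12, hττ, map_pow] at h5'
        exact mul_left_cancel₀ (pow_ne_zero r hμ0) h5'
      have h13' : act σ P = P := by
        rw [hP, map_prod, ← Finset.prod_congr rfl (fun τ _ => h13 τ)]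
        exact hPsh
      rw [h13'] at h10
      have h14 : j (σ z) = j z := mul_left_cancel₀ (mul_ne_zero hP0 his) h10
      have h15 : σ z = z := j.injective h14
      rw [map_mul, h11, h15]
    · rw [← hM, ← hu, h7] at h12
      have h13 : ∀ τ, t (sh τ) = -act σ (t τ) := by
        intro τ
        have h5' := h5 τ
        rw [h12, map_neg, hττ, map_pow] at h5'
        refine mul_left_cancel₀ (pow_ne_zero r hμ0) ?_
        rw [h5']
        ring
      have h13' : act σ P = -P := by
        have h16 : ∏ τ : K →ₐ[ℚ_[ℓ]] C, act σ (t τ) = -P := by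
          have h17 : ∀ τ, act σ (t τ) = (-1) * t (sh τ) := by
            intro τ
            rw [h13 τ]; ring
          rw [Finset.prod_congr rfl (fun τ _ => h17 τ), Finset.prod_mul_distrib,
            Finset.prod_const, Finset.card_univ, hcard, hodd.neg_one_pow, hPsh]
          ring
        rw [hP, map_prod]
        exact h16
      rw [h13'] at h10
      have h14 : j (σ z) = j (-z) := by
        refine mul_left_cancel₀ (mul_ne_zero hP0 his) ?_
        rw [map_neg]
        linear_combination -h10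
      have h15 : σ z = -z := j.injective h14
      rw [map_mul, h11, h15]
      ring

end PQ
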