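import Pool.Agent.Helper94.PQ.Stmts

/-!
# Row ODD: parity of the conductor of an orthogonal representation at an odd place
-/

set_option autoImplicit false

open scoped Classical

namespace PQ

namespace Odd48

section avg

variable {G k V : Type} [Group G] [Field k] [CharZero k] [AddCommGroup V] [Module k V]
  {R H H' : Subgroup G} [Fintype H] (r : R →* (V →ₗ[k] V)) (hle : H ≤ R)

/-- the average over `H` -/
noncomputable def avg : V →ₗ[k] V :=
  ((Fintype.card H : k)⁻¹) • ∑ g : H, r (Subgroup.inclusion hle g)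

theorem card_ne : (Fintype.card H : k) ≠ 0 := by
  have : Fintype.card H ≠ 0 := Fintype.card_ne_zero
  exact_mod_cast this

theorem avg_apply (x : V) : avg r hle x =
    ((Fintype.card H : k)⁻¹) • ∑ g : H, r (Subgroup.inclusion hle g) x := by
  unfold avg
  rw [LinearMap.smul_apply, LinearMap.sum_apply]

theorem avg_fix (x : V) (hx : x ∈ fixS r H) : avg r hle x = x := by
  rw [avg_apply]
  have : ∀ g : H, r (Subgroup.inclusion hle g) x = x := fun g => hx _ g.2
  rw [Finset.sum_congr rfl (fun g _ => this g), Finset.sum_const, Finset.card_univ,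
    ← Nat.cast_smul_eq_nsmul k, smul_smul, inv_mul_cancel₀ card_ne, one_smul]

theorem avg_comm (S : V →ₗ[k] V) (c : H ≃ H)
    (h : ∀ (g : H) (x : V), S (r (Subgroup.inclusion hle g) x) =
      r (Subgroup.inclusion hle (c g)) (S x)) (x : V) : S (avg r hle x) = avg r hle (S x) := by
  rw [avg_apply, avg_apply, map_smul, map_sum]
  congr 1
  rw [Finset.sum_congr rfl (fun g _ => h g x)]
  exact Equiv.sum_comp c (fun g => r (Subgroup.inclusion hle g) (S x))

theorem avg_mem (x : V) : avg r hle x ∈ fixS r H := by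
  intro g hg
  rw [avg_apply, map_smul, map_sum]
  congr 1
  have e : ∀ g' : H, r g (r (Subgroup.inclusion hle g') x) =
      r (Subgroup.inclusion hle ((Equiv.mulLeft (⟨(g : G), hg⟩ : H)) g')) x := by
    intro g'
    rw [← Module.End.mul_apply, ← map_mul]
    rfl
  rw [Finset.sum_congr rfl (fun g' _ => e g')]
  exact Equiv.sum_comp (Equiv.mulLeft (⟨(g : G), hg⟩ : H))
    (fun g' => r (Subgroup.inclusion hle g') x)

theorem avg_adj (B : V →ₗ[k] V →ₗ[k] k) (hr : ∀ g x y, B (r g x) (r g y) = B x y) (x y : V) :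
    B (avg r hle x) y = B x (avg r hle y) := by
  rw [avg_apply, avg_apply, map_smul, map_sum, map_smul, map_sum, LinearMap.smul_apply,
    LinearMap.sum_apply]
  congr 1
  have e : ∀ g : H, B (r (Subgroup.inclusion hle g) x) y =
      B x (r (Subgroup.inclusion hle ((Equiv.inv H) g)) y) := by
    intro g
    rw [← hr (Subgroup.inclusion hle g) x, ← Module.End.mul_apply, ← map_mul]
    have : Subgroup.inclusion hle g * Subgroup.inclusion hle ((Equiv.inv H) g) = 1 := by
      rw [← map_mul]; simp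
    rw [this, map_one]; rfl
  rw [Finset.sum_congr rfl (fun g _ => e g)]
  exact Equiv.sum_comp (Equiv.inv H) (fun g => B x (r (Subgroup.inclusion hle g) y))

theorem fixS_anti (h : H' ≤ H) : fixS r H ≤ fixS r H' := fun _ hx g hg => hx g (h hg)

theorem finrank_step [FiniteDimensional k V] (h : H' ≤ H) (K : Submodule k V)
    (hK : ∀ x ∈ K, avg r hle x ∈ K) :
    Module.finrank k (K ⊓ fixS r H' : Submodule k V) =
      Module.finrank k (K ⊓ fixS r H : Submodule k V) +
      Module.finrank k (K ⊓ (fixS r H' ⊓ LinearMap.ker (avg r hle)) : Submodule k V) := by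
  set Q : Submodule k V := K ⊓ fixS r H' with hQ
  have h1 := LinearMap.finrank_range_add_finrank_ker ((avg r hle).domRestrict Q)
  have h2 : LinearMap.range ((avg r hle).domRestrict Q) = K ⊓ fixS r H := by
    ext x
    constructor
    · rintro ⟨y, rfl⟩
      exact ⟨hK _ y.2.1, avg_mem r hle _⟩
    · rintro ⟨hx1, hx2⟩
      exact ⟨⟨x, hx1, fixS_anti r h hx2⟩, avg_fix r hle x hx2⟩
  have h3 : (LinearMap.ker ((avg r hle).domRestrict Q)).map Q.subtype =
      K ⊓ (fixS r H' ⊓ LinearMap.ker (avg r hle)) := by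
    ext x
    constructor
    · rintro ⟨y, hy, rfl⟩
      exact ⟨y.2.1, y.2.2, hy⟩
    · rintro ⟨hx1, hx2, hx3⟩
      exact ⟨⟨x, hx1, hx2⟩, hx3, rfl⟩
  rw [← h1, h2, ← h3, Submodule.finrank_map_subtype_eq]

end avg

section conj

variable {G k V : Type} [Group G] [Field k] [AddCommGroup V] [Module k V]
  {R : Subgroup G} (r : R →* (V →ₗ[k] V))

/-- `S` is compatible with the conjugation by `s` -/
def Cj (S : V →ₗ[k] V) (s : G) : Prop :=
  ∀ (g g' : R), (g' : G) = s * g * s⁻¹ → ∀ x, S (r g x) = r g' (S x)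

theorem Cj_r (h : R) : Cj r (r h) (h : G) := by
  intro g g' hg x
  rw [← Module.End.mul_apply, ← Module.End.mul_apply, ← map_mul, ← map_mul]
  congr 2
  apply Subtype.ext
  push_cast
  rw [hg]; group

theorem Cj_pow [R.Normal] (T : V →ₗ[k] V) (t : G) (h : Cj r T t) (m : ℕ) :
    Cj r (T ^ m) (t ^ m) := by
  induction m with
  | zero =>
    intro g g' hg x
    have : g' = g := Subtype.ext (by simpa using hg)
    rw [this]; rfl
  | succ m ih =>
    intro g g' hg x
    have hn : R.Normal := inferInstance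
    let g1 : R := ⟨t ^ m * g * (t ^ m)⁻¹, hn.conj_mem _ g.2 _⟩
    rw [pow_succ', Module.End.mul_apply, Module.End.mul_apply, ih g g1 rfl]
    apply h
    rw [hg, pow_succ']
    simp only [g1]
    group

theorem stab_fix [R.Normal] {H : Subgroup G} (hH : H.Normal) (S : V →ₗ[k] V) (s : G)
    (h : Cj r S s) (x : V) (hx : x ∈ fixS r H) : S x ∈ fixS r H := by
  intro g hg
  have hn : R.Normal := inferInstance
  let g0 : R := ⟨s⁻¹ * g * s⁻¹⁻¹, hn.conj_mem _ g.2 _⟩
  have h1 := h g0 g (by simp only [g0]; group) x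
  rw [← h1, hx g0 (hH.conj_mem _ hg _)]

theorem stab_avg [CharZero k] [R.Normal] {H : Subgroup G} [Fintype H] (hle : H ≤ R)
    (hH : H.Normal) (S : V →ₗ[k] V) (s : G)
    (h : Cj r S s) (x : V) : S (avg r hle x) = avg r hle (S x) := by
  refine avg_comm r hle S (MulAut.conjNormal s : MulAut H).toEquiv ?_ x
  intro g x
  exact h _ _ rfl x

theorem dvd_iff (e j m : ℕ) (he : 0 < e) : e ∣ j * m ↔ e / e.gcd j ∣ m := by
  have hg : 0 < e.gcd j := Nat.gcd_pos_of_pos_left _ he
  have h1 : e = e.gcd j * (e / e.gcd j) := (Nat.mul_div_cancel' (Nat.gcd_dvd_left e j)).symm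
  have h2 : j = e.gcd j * (j / e.gcd j) := (Nat.mul_div_cancel' (Nat.gcd_dvd_right e j)).symm
  have h3 : Nat.Coprime (e / e.gcd j) (j / e.gcd j) := Nat.coprime_div_gcd_div_gcd hg
  constructor
  · intro h
    rw [h2, mul_assoc] at h
    nth_rewrite 1 [h1] at h
    exact h3.dvd_of_dvd_mul_left (Nat.dvd_of_mul_dvd_mul_left hg h)
  · intro h
    rw [h2, mul_assoc]
    nth_rewrite 1 [h1]
    exact Nat.mul_dvd_mul_left _ (h.mul_left _)

end conj

/-- the layer `j` -/
noncomputable def lay {G k V : Type} [Group G] [Finite G] [Field k] [AddCommGroup V] [Module k V]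
    {R : ℕ → Subgroup G} (r : R 1 →* (V →ₗ[k] V)) (j : ℕ) (hle : R j ≤ R 1) : Submodule k V :=
  letI := Fintype.ofFinite (R j)
  fixS r (R (j + 1)) ⊓ LinearMap.ker (avg r hle)

theorem layer (h1 : ST_ODDU) (G : Type) [Group G] [Finite G] (p e : ℕ) (t : G)
    (R : ℕ → Subgroup G) (hp : p.Prime) (hp2 : p ≠ 2) (hF : Filt G p e t R)
    (k V : Type) [Field k] [CharZero k] [AddCommGroup V] [Module k V] [FiniteDimensional k V]
    (ζ : k) (hζ : IsPrimitiveRoot ζ p) (B : V →ₗ[k] V →ₗ[k] k) (hB : Symm B)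
    (r : R 1 →* (V →ₗ[k] V)) (T : V →ₗ[k] V)
    (hr : ∀ g x y, B (r g x) (r g y) = B x y) (hT : ∀ x y, B (T x) (T y) = B x y)
    (hrT : ∀ (g g' : R 1), (g' : G) = t * g * t⁻¹ → ∀ x, T (r g x) = r g' (T x))
    (j : ℕ) (hj : 1 ≤ j) :
    ∃ d : ℕ, Module.finrank k (lay r j (hF.anti hj)) = (e / e.gcd j) * d ∧
      (Even (e / e.gcd j) → Even (d + Module.finrank k
        (LinearMap.ker (T - 1) ⊓ lay r j (hF.anti hj) : Submodule k V))) ∧
      (¬ Even (e / e.gcd j) → Even d ∧ Even (Module.finrank k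
        (LinearMap.ker (T - 1) ⊓ lay r j (hF.anti hj) : Submodule k V))) := by
  letI := Fintype.ofFinite (R j)
  letI := Fintype.ofFinite (R (j + 1))
  have hle : R j ≤ R 1 := hF.anti hj
  have hle' : R (j + 1) ≤ R 1 := hF.anti (by omega)
  have hle2 : R (j + 1) ≤ R j := hF.anti (by omega)
  haveI n1 : (R 1).Normal := hF.normal 1
  have nj : (R j).Normal := hF.normal j
  have nj' : (R (j + 1)).Normal := hF.normal (j + 1)
  set U : Submodule k V := lay r j (hF.anti hj) with hU
  have memU : ∀ x, x ∈ U ↔ x ∈ fixS r (R (j + 1)) ∧ avg r hle x = 0 := fun x => Iff.rfl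
  set N := e / e.gcd j with hN
  have hg : 0 < e.gcd j := Nat.gcd_pos_of_pos_left _ hF.e_pos
  have hNpos : 0 < N := Nat.div_pos (Nat.le_of_dvd hF.e_pos (Nat.gcd_dvd_left _ _)) hg
  have stabS : ∀ (S : V →ₗ[k] V) (s : G), Cj r S s → ∀ x ∈ U, S x ∈ U := by
    intro S s hS x hx
    rw [memU] at hx ⊢
    refine ⟨stab_fix r nj' S s hS x hx.1, ?_⟩
    rw [← stab_avg r hle nj S s hS, hx.2, map_zero]
  have stabr : ∀ g : R 1, ∀ x ∈ U, r g x ∈ U := fun g => stabS _ _ (Cj_r r g)
  have cT : Cj r T t := hrT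
  have stabT : ∀ x ∈ U, T x ∈ U := stabS _ _ cT
  let rU : R j →* (U →ₗ[k] U) :=
    { toFun := fun g => (r (Subgroup.inclusion hle g)).restrict (stabr _)
      map_one' := by
        ext x
        simp
      map_mul' := by
        intro g h
        ext x
        simp }
  have rU_apply : ∀ (g : R j) (x : U), ((rU g x : U) : V) = r (Subgroup.inclusion hle g) x :=
    fun g x => rfl
  let TU : U →ₗ[k] U := T.restrict stabT
  have TU_apply : ∀ (x : U), ((TU x : U) : V) = T x := fun x => rfl
  have TU_pow : ∀ (m : ℕ) (x : U), (((TU ^ m) x : U) : V) = (T ^ m) (x : V) := by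
    intro m
    induction m with
    | zero => intro x; rfl
    | succ m ih =>
      intro x
      rw [pow_succ', Module.End.mul_apply, TU_apply, ih, pow_succ', Module.End.mul_apply]
  let θ : ℕ → R j → R j := fun m g => ⟨t ^ m * g * (t ^ m)⁻¹, nj.conj_mem _ g.2 _⟩
  let BU : U →ₗ[k] U →ₗ[k] k := B.domRestrict₁₂ U U
  have BU_apply : ∀ x y : U, BU x y = B (x : V) (y : V) := fun x y => rfl
  have hsymm : Symm BU := by
    refine ⟨fun x y => hB.symm _ _, ?_⟩
    intro y hy
    apply Subtype.ext
    apply hB.nondeg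
    intro v
    have hm : avg r hle' v - avg r hle v ∈ U := by
      rw [memU]
      have m1 := avg_mem r hle' v
      have m2 := fixS_anti r hle2 (avg_mem r hle v)
      refine ⟨Submodule.sub_mem _ m1 m2, ?_⟩
      rw [map_sub, avg_fix r hle (avg r hle v) (avg_mem r hle v)]
      -- average over the larger group of the average over the smaller one
      have : avg r hle (avg r hle' v) = avg r hle v := by
        apply sub_eq_zero.1
        apply hB.nondeg
        intro w
        rw [map_sub, ← avg_adj r hle B hr, ← avg_adj r hle' B hr, ← avg_adj r hle B hr,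
          avg_fix r hle' _ (fixS_anti r hle2 (avg_mem r hle w)), sub_self]
      rw [this, sub_self]
    have h3 := hy ⟨_, hm⟩
    rw [BU_apply] at h3
    have hy2 := (memU _).1 y.2
    simp only [map_sub, LinearMap.sub_apply] at h3
    rw [avg_adj r hle' B hr, avg_adj r hle B hr, avg_fix r hle' _ hy2.1, hy2.2, map_zero,
      sub_zero] at h3
    exact h3
  have same : ∀ a b : R j, (a : G)⁻¹ * b ∈ R (j + 1) → rU b = rU a := by
    intro a b hab
    ext x
    have e1 : rU b = rU a * rU (a⁻¹ * b) := by rw [← map_mul]; congr 1; group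
    rw [e1, Module.End.mul_apply, rU_apply, rU_apply, rU_apply]
    congr 1
    exact ((memU _).1 x.2).1 (Subgroup.inclusion hle (a⁻¹ * b)) hab
  have same' : ∀ a b : R j, (b : G) * (a : G)⁻¹ ∈ R (j + 1) → rU b = rU a := by
    intro a b hab
    apply same
    have := nj'.conj_mem _ hab ((a : G)⁻¹)
    have e : (a : G)⁻¹ * ((b : G) * (a : G)⁻¹) * ((a : G)⁻¹)⁻¹ = (a : G)⁻¹ * b := by group
    rwa [e] at this
  have ker_eq : Module.finrank k (LinearMap.ker (TU - 1)) =
      Module.finrank k (LinearMap.ker (T - 1) ⊓ U : Submodule k V) := by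
    have : (LinearMap.ker (TU - 1)).map U.subtype = LinearMap.ker (T - 1) ⊓ U := by
      ext x
      constructor
      · rintro ⟨y, hy, rfl⟩
        have hy' : TU y - y = 0 := hy
        refine ⟨?_, y.2⟩
        show T y - y = 0
        exact congrArg Subtype.val hy'
      · rintro ⟨hx1, hx2⟩
        refine ⟨⟨x, hx2⟩, ?_, rfl⟩
        have hx1' : T x - x = 0 := hx1
        show TU ⟨x, hx2⟩ - ⟨x, hx2⟩ = 0
        apply Subtype.ext
        exact hx1'
    rw [← this, Submodule.finrank_map_subtype_eq]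
  have main := h1 (R j) p N hp hp2 hNpos k U ζ hζ BU hsymm rU TU θ
    (fun g x y => hr _ _ _) (fun x y => hT _ _)
    (by
      intro m g x
      apply Subtype.ext
      rw [TU_pow, rU_apply, rU_apply, TU_pow]
      exact Cj_pow r T t cT m _ _ rfl _)
    (by
      intro g h
      apply same'
      have := hF.comm j hj h h.2 g (hle g.2)
      have e : ((g * h : R j) : G) * ((h * g : R j) : G)⁻¹ = g * h * (g : G)⁻¹ * (h : G)⁻¹ := by
        push_cast
        group
      rw [e]; exact this)
    (by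
      intro g
      rw [← map_one rU]
      apply same
      have := hF.pow j hj g g.2
      simpa using this)
    (by
      intro x hx
      apply Subtype.ext
      have hx2 := (memU _).1 x.2
      rw [← avg_fix r hle (x : V) (by
        intro g hg
        exact congrArg Subtype.val (hx ⟨g, hg⟩)), hx2.2]
      rfl)
    (by
      intro m hm g
      apply same'
      by_cases hgj : (g : G) ∈ R (j + 1)
      · exact mul_mem (nj'.conj_mem _ hgj _) (inv_mem hgj)
      · exact (hF.fix j hj g g.2 hgj m).2 ((dvd_iff e j m hF.e_pos).2 hm))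
    (by
      intro m hm g
      -- surjectivity on the quotient
      let N' : Subgroup (R j) := (R (j + 1)).subgroupOf (R j)
      haveI : N'.Normal := Subgroup.normal_subgroupOf
      let α : R j →* R j := (MulAut.conjNormal (t ^ m) : MulAut (R j)).toMonoidHom
      have hα : ∀ h : R j, ((α h : R j) : G) = t ^ m * h * (t ^ m)⁻¹ := fun h => rfl
      have hαN : N' ≤ N'.comap α := by
        intro h hh
        show (α h : G) ∈ R (j + 1)
        rw [hα]
        exact nj'.conj_mem _ hh _
      let αq : (R j ⧸ N') →* (R j ⧸ N') := QuotientGroup.map N' N' α hαN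
      let ψ : (R j ⧸ N') → (R j ⧸ N') := fun q => αq q * q⁻¹
      have hinj : Function.Injective ψ := by
        intro q1 q2 hq
        have hq' : αq q1 * q1⁻¹ = αq q2 * q2⁻¹ := hq
        have h3 : αq (q2⁻¹ * q1) = q2⁻¹ * q1 := by
          have : αq q1 = αq q2 * q2⁻¹ * q1 := by rw [← hq']; group
          rw [map_mul, map_inv, this]; group
        obtain ⟨h, hh⟩ := QuotientGroup.mk_surjective (q2⁻¹ * q1)
        rw [← hh] at h3
        have h4 : ((α h : R j) : R j ⧸ N') = (h : R j ⧸ N') := h3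
        rw [QuotientGroup.eq] at h4
        have h5 : ((α h : R j) : G)⁻¹ * h ∈ R (j + 1) := h4
        have h6 : h ∈ N' := by
          by_contra hcon
          have hcon' : (h : G) ∉ R (j + 1) := hcon
          have h7 := (hF.fix j hj h h.2 hcon' m).1 (by
            rw [← hα]
            have := nj'.conj_mem _ (inv_mem h5) (h : G)
            have e : (h : G) * (((α h : R j) : G)⁻¹ * h)⁻¹ * (h : G)⁻¹ =
              ((α h : R j) : G) * (h : G)⁻¹ := by group
            rw [e] at this
            exact this)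
          exact hm ((dvd_iff e j m hF.e_pos).1 h7)
        have h8 : q2⁻¹ * q1 = 1 := by
          rw [← hh]
          exact (QuotientGroup.eq_one_iff h).2 h6
        exact (inv_mul_eq_one.1 h8).symm
      have hsurj := (Finite.injective_iff_surjective.1 hinj) (g : R j ⧸ N')
      obtain ⟨q, hq⟩ := hsurj
      obtain ⟨h, rfl⟩ := QuotientGroup.mk_surjective q
      refine ⟨h, ?_⟩
      apply same
      have h9 : ((θ m h * h⁻¹ : R j) : R j ⧸ N') = (g : R j ⧸ N') := hq
      rw [QuotientGroup.eq] at h9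
      exact h9)
    (by
      intro m hm g
      rw [← map_one rU]
      apply same'
      have e0 : ((θ m g * g : R j) : G) * ((1 : R j) : G)⁻¹ = t ^ m * g * (t ^ m)⁻¹ * g := by
        simp [θ]
      rw [e0]
      by_cases hgj : (g : G) ∈ R (j + 1)
      · exact mul_mem (nj'.conj_mem _ hgj _) hgj
      · have h3 : e ∣ 2 * (j * m) := by
          have := (dvd_iff e j N hF.e_pos).2 dvd_rfl
          rw [hm] at this
          have e2 : 2 * (j * m) = j * (2 * m) := by ring
          rw [e2]; exact this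
        refine hF.neg j hj g g.2 m h3 ?_
        intro h4
        have h5 := (dvd_iff e j m hF.e_pos).1 h4
        rw [← hN, hm] at h5
        have : 0 < m := by omega
        have := Nat.le_of_dvd this h5
        omega)
  obtain ⟨d, hd1, hd2, hd3⟩ := main
  rw [ker_eq] at hd2 hd3
  exact ⟨d, hd1, hd2, hd3⟩

theorem sum_layers (c : ℕ → ℤ) (f u : ℕ → ℤ) (hf : ∀ j, 1 ≤ j → f (j + 1) = f j + u j) (M : ℕ) :
    ∑ j ∈ Finset.Icc 1 M, u j * ∑ i ∈ Finset.Icc 1 j, c i =
      ∑ i ∈ Finset.Icc 1 M, c i * (f (M + 1) - f i) := by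
  induction M with
  | zero => simp
  | succ M ih =>
    rw [Finset.sum_Icc_succ_top (by omega), ih, Finset.sum_Icc_succ_top (by omega) (fun i => c i *
      (f (M + 1 + 1) - f i)), hf (M + 1) (by omega), Finset.mul_sum,
      Finset.sum_Icc_succ_top (by omega) (fun i => u (M + 1) * c i)]
    have : ∀ i, c i * (f (M + 1) + u (M + 1) - f i) =
      c i * (f (M + 1) - f i) + u (M + 1) * c i := fun i => by ring
    rw [Finset.sum_congr rfl (fun i _ => this i), Finset.sum_add_distrib]
    ring

theorem sum_tel (g κ : ℕ → ℤ) (hf : ∀ j, 1 ≤ j → g (j + 1) = g j + κ j) (M : ℕ) :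
    ∑ j ∈ Finset.Icc 1 M, κ j = g (M + 1) - g 1 := by
  induction M with
  | zero => simp
  | succ M ih =>
    rw [Finset.sum_Icc_succ_top (by omega), ih, hf (M + 1) (by omega)]
    ring

end Odd48

open Odd48 in
/-- row ODD -/
theorem odd (h1 : ST_ODDU) (h2 : ST_CARD) (h3 : ST_ODDA) : ST_ODD := by
  intro G _ _ p e t R hp hp2 hF k V _ _ _ _ _ ζ hζ B hB r T hr hT hrT a ha
  obtain ⟨L, hL⟩ := hF.bot
  have hbot : ∀ i, L ≤ i → R i = ⊥ := fun i hi => le_bot_iff.1 (hL ▸ hF.anti hi)
  set K : Submodule k V := LinearMap.ker (T - 1) with hK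
  have hlay := layer h1 G p e t R hp hp2 hF k V ζ hζ B hB r T hr hT hrT
  choose! d hd1 hd2 hd3 using hlay
  -- dimensions of the fixed vectors
  set f : ℕ → ℤ := fun i => (Module.finrank k (fixS r (R i)) : ℤ) with hf
  set g : ℕ → ℤ := fun i => (Module.finrank k (K ⊓ fixS r (R i) : Submodule k V) : ℤ) with hg
  let Uj : ℕ → Submodule k V := fun j => if h : 1 ≤ j then lay r j (hF.anti h) else ⊥
  have hUj : ∀ j (h : 1 ≤ j), Uj j = lay r j (hF.anti h) := fun j h => dif_pos h
  set κ : ℕ → ℕ := fun j => Module.finrank k (K ⊓ Uj j : Submodule k V) with hκ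
  have n1 : (R 1).Normal := hF.normal 1
  have cT : Cj r T t := hrT
  have fstep : ∀ j, 1 ≤ j → f (j + 1) = f j + ((e / e.gcd j * d j : ℕ) : ℤ) := by
    intro j hj
    letI := Fintype.ofFinite (R j)
    have := finrank_step (H' := R (j + 1)) r (hF.anti hj) (hF.anti (Nat.le_succ j)) ⊤
      (fun x _ => trivial)
    rw [top_inf_eq, top_inf_eq, top_inf_eq] at this
    have h4 := hd1 j hj
    simp only [hf]
    rw [this, ← h4]
    push_cast
    rfl
  have gstep : ∀ j, 1 ≤ j → g (j + 1) = g j + (κ j : ℤ) := by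
    intro j hj
    letI := Fintype.ofFinite (R j)
    have := finrank_step (H' := R (j + 1)) r (hF.anti hj) (hF.anti (Nat.le_succ j)) K (by
      intro x hx
      have hx' : T x - x = 0 := hx
      show T (avg r (hF.anti hj) x) - avg r (hF.anti hj) x = 0
      rw [stab_avg r (hF.anti hj) (hF.normal j) T t cT, ← map_sub, hx', map_zero])
    simp only [hg, hκ]
    rw [this, hUj j hj]
    push_cast
    rfl
  have ftop : ∀ i, L ≤ i → fixS r (R i) = ⊤ := by
    intro i hi
    rw [eq_top_iff]
    intro x _ g' hg'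
    rw [hbot i hi, Subgroup.mem_bot] at hg'
    have : g' = 1 := Subtype.ext hg'
    rw [this, map_one]; rfl
  have fL : f (L + 1) = Module.finrank k V := by
    simp only [hf]
    rw [ftop _ (by omega), finrank_top]
  have gL : g (L + 1) = Module.finrank k K := by
    simp only [hg]
    rw [ftop _ (by omega), inf_top_eq]
  have hrank : (Module.finrank k (LinearMap.range (T - 1)) : ℤ) =
      Module.finrank k V - Module.finrank k K := by
    have := LinearMap.finrank_range_add_finrank_ker (T - 1)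
    rw [← this]
    push_cast
    ring
  -- the sum
  have hfin : ∑ᶠ i : ℕ, Nat.card (R (i + 1)) *
      (Module.finrank k V - Module.finrank k (fixS r (R (i + 1)))) =
      ∑ i ∈ Finset.range L, Nat.card (R (i + 1)) *
      (Module.finrank k V - Module.finrank k (fixS r (R (i + 1)))) := by
    apply finsum_eq_sum_of_support_subset
    intro i hi
    rw [Function.mem_support] at hi
    simp only [Finset.coe_range, Set.mem_Iio]
    by_contra hcon
    apply hi
    rw [ftop (i + 1) (by omega), finrank_top, Nat.sub_self, Nat.mul_zero]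
  have hfix1 : fixS r (⊤ : Subgroup G) = fixS r (R 1) := by
    ext x
    exact ⟨fun h g' _ => h g' trivial, fun h g' _ => h g' g'.2⟩
  have hg1 : Module.finrank k (fixS r ⊤ ⊓ LinearMap.ker (T - 1) : Submodule k V) =
      Module.finrank k (K ⊓ fixS r (R 1) : Submodule k V) := by
    rw [hfix1, inf_comm]
  rw [hfin, hg1] at ha
  have haZ := congrArg (Nat.cast : ℕ → ℤ) ha
  push_cast at haZ
  rw [Nat.cast_sub (Submodule.finrank_le _)] at haZ
  have hsumc : ∀ i ∈ Finset.range L, (Nat.card (R (i + 1)) : ℤ) *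
      ((Module.finrank k V - Module.finrank k (fixS r (R (i + 1))) : ℕ) : ℤ) =
      (Nat.card (R (i + 1)) : ℤ) * (f (L + 1) - f (i + 1)) := by
    intro i _
    rw [Nat.cast_sub (Submodule.finrank_le _), fL]
  rw [Finset.sum_congr rfl hsumc] at haZ
  have hshift : ∑ i ∈ Finset.range L, (Nat.card (R (i + 1)) : ℤ) * (f (L + 1) - f (i + 1)) =
      ∑ i ∈ Finset.Icc 1 L, (Nat.card (R i) : ℤ) * (f (L + 1) - f i) := by
    rw [Finset.range_eq_Ico, Finset.sum_Ico_add' (fun i => (Nat.card (R i) : ℤ) *
      (f (L + 1) - f i)) 0 L 1]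
    rfl
  rw [hshift] at haZ
  set c : ℕ → ℕ := fun i => if i = 0 then 1 else Nat.card (R i) with hc
  have hci : ∀ i, 1 ≤ i → c i = Nat.card (R i) := fun i hi => if_neg (by omega)
  have hcs : ∀ M, ∀ F : ℕ → ℤ, ∑ i ∈ Finset.Icc 1 M, (Nat.card (R i) : ℤ) * F i =
      ∑ i ∈ Finset.Icc 1 M, (c i : ℤ) * F i := by
    intro M F
    refine Finset.sum_congr rfl (fun i hi => ?_)
    rw [hci i (Finset.mem_Icc.1 hi).1]
  rw [hcs, ← sum_layers (fun i => (c i : ℤ)) f _ fstep L] at haZ
  have hcard : (Nat.card G : ℤ) = e * c 1 := by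
    rw [hci 1 le_rfl, hF.card]; push_cast; ring
  have hodd : ∀ i, Odd (c i) := by
    intro i
    by_cases hi : i = 0
    · simp [hc, hi]
    · rw [hci i (by omega)]
      haveI : Fact p.Prime := ⟨hp⟩
      obtain ⟨s, hs⟩ := (IsPGroup.iff_card (p := p) (G := R 1)).1 hF.pgrp
      have h5 : Nat.card (R i) ∣ Nat.card (R 1) := Subgroup.card_dvd_of_le (hF.anti (by omega))
      rw [hs] at h5
      exact (hp.odd_of_ne_two hp2).pow.of_dvd_nat h5
  have hcarddvd : ∀ i, 1 ≤ i → (e : ℤ) ∣ i * ((c i : ℤ) - c (i + 1)) := by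
    intro i hi
    rw [hci i hi, hci (i + 1) (by omega)]
    exact h2 G p e t R hp hF i hi
  have key := h3 e L c d κ hF.e_pos hodd hcarddvd (by
    intro j hj
    simp only [hκ]
    rw [hUj j hj]
    exact ⟨hd2 j hj, hd3 j hj⟩) ((a : ℤ) - Module.finrank k (LinearMap.range (T - 1))) (by
    rw [Finset.sum_add_distrib, ← Finset.mul_sum]
    have h6 := sum_tel g (fun j => (κ j : ℤ)) gstep L
    rw [h6, hrank, gL]
    rw [hcard] at haZ
    have h7 : g 1 = (Module.finrank k (K ⊓ fixS r (R 1) : Submodule k V) : ℤ) := rfl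
    rw [← h7] at haZ
    linear_combination haZ)
  have h8 : Even (((a + Module.finrank k (LinearMap.range (T - 1)) : ℕ)) : ℤ) := by
    obtain ⟨b, hb⟩ := key
    refine ⟨b + Module.finrank k (LinearMap.range (T - 1)), ?_⟩
    push_cast
    linarith
  exact_mod_cast h8

end PQ
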